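import Mathlib

set_option autoImplicit false

open Cardinal Set Topology Filter

namespace Pool.Agent.Lib.MP_ab9ad9_lc

/-- `D` is a dominating family: every `g : ℕ → ℕ` is `≤*` a member of `D`. -/
def Dominating (D : Set (ℕ → ℕ)) : Prop := ∀ g : ℕ → ℕ, ∃ f ∈ D, ∀ᶠ n in atTop, g n ≤ f n

/-- The dominating number `𝔡`. -/
noncomputable def dnum : Cardinal.{0} := sInf {c | ∃ D : Set (ℕ → ℕ), Dominating D ∧ #D = c}

/-- `cov(M)`: the least cardinality of a family of meager sets that covers the Baire space. -/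
noncomputable def covM : Cardinal.{0} :=
  sInf {c | ∃ S : Set (Set (ℕ → ℕ)), (∀ s ∈ S, IsMeagre s) ∧ ⋃₀ S = Set.univ ∧ #S = c}

/-- The Menger property `S_fin(O, O)`. -/
def Menger (X : Type) [TopologicalSpace X] : Prop :=
  ∀ U : ℕ → Set (Set X), (∀ n, (∀ u ∈ U n, IsOpen u) ∧ ⋃₀ U n = Set.univ) →
    ∃ F : ℕ → Set (Set X), (∀ n, F n ⊆ U n ∧ (F n).Finite) ∧ ⋃ n, ⋃₀ F n = Set.univ

theorem exists_dominating : ∃ D : Set (ℕ → ℕ), Dominating D ∧ #D = dnum := by
  have h : {c | ∃ D : Set (ℕ → ℕ), Dominating D ∧ #D = c}.Nonempty :=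
    ⟨#(Set.univ : Set (ℕ → ℕ)), Set.univ, fun g => ⟨g, mem_univ _, Eventually.of_forall fun n => le_rfl⟩, rfl⟩
  exact csInf_mem h

theorem not_dominating {D : Set (ℕ → ℕ)} (h : #D < dnum) : ¬ Dominating D := fun hD => by
  have h2 : dnum ≤ #D := csInf_le' ⟨D, hD, rfl⟩
  exact absurd h2 (not_le.2 h)

theorem aleph0_lt_dnum : ℵ₀ < dnum := by
  by_contra hle
  rw [not_lt] at hle
  obtain ⟨D, hD, hc⟩ := exists_dominating
  have hcount : D.Countable := by
    rw [← Cardinal.le_aleph0_iff_set_countable, hc]; exact hle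
  have hne : D.Nonempty := by
    obtain ⟨f, hf, -⟩ := hD 0
    exact ⟨f, hf⟩
  obtain ⟨e, he⟩ := hcount.exists_eq_range hne
  obtain ⟨f, hf, hev⟩ := hD (fun n => (∑ k ∈ Finset.range (n + 1), e k n) + 1)
  rw [he] at hf
  obtain ⟨k, rfl⟩ := hf
  obtain ⟨N, hN⟩ := eventually_atTop.1 hev
  have h1 := hN (max N k) (le_max_left _ _)
  have h2 : e k (max N k) ≤ ∑ j ∈ Finset.range (max N k + 1), e j (max N k) :=
    Finset.single_le_sum (f := fun j => e j (max N k)) (fun _ _ => Nat.zero_le _)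
      (Finset.mem_range.2 (by have := le_max_right N k; omega))
  omega

theorem exists_not_mem {S : Set (Set (ℕ → ℕ))} (hS : ∀ s ∈ S, IsMeagre s) (hc : #S < covM) :
    ∃ c, ∀ s ∈ S, c ∉ s := by
  by_contra hcon
  push Not at hcon
  have : ⋃₀ S = Set.univ := by
    ext c
    simp only [mem_sUnion, mem_univ, iff_true]
    obtain ⟨s, hs, hcs⟩ := hcon c
    exact ⟨s, hs, hcs⟩
  have h2 : covM ≤ #S := csInf_le' ⟨S, hS, this, rfl⟩
  exact absurd h2 (not_le.2 hc)

/-- A second countable space that is concentrated, modulo fewer than `𝔡` points, on a countable set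
has the Menger property. -/
theorem menger_of_concentrated {X : Type} [TopologicalSpace X] [SecondCountableTopology X]
    {D : Set X} (hD : D.Countable)
    (h : ∀ U : Set X, IsOpen U → D ⊆ U → #(Uᶜ : Set X) < dnum) : Menger X := by
  intro U hU
  classical
  rcases isEmpty_or_nonempty X with hX | ⟨⟨x0⟩⟩
  · exact ⟨fun _ => ∅, fun n => ⟨empty_subset _, finite_empty⟩, by
      ext x; exact (hX.false x).elim⟩
  -- enumerate `D ∪ {x0}`
  obtain ⟨e, he⟩ := (hD.insert x0).exists_eq_range (insert_nonempty _ _)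
  -- the set that covers the point `e n`
  have hu : ∀ n, ∃ u ∈ U n, e n ∈ u := fun n => by
    have : e n ∈ ⋃₀ U n := by rw [(hU n).2]; trivial
    exact this
  choose u huU heu using hu
  -- countable subcovers
  have hW : ∀ n, ∃ W : ℕ → Set X, (∀ k, W k ∈ U n) ∧ ⋃ k, W k = Set.univ := fun n => by
    obtain ⟨T, hTc, hTU, hTeq⟩ := TopologicalSpace.isOpen_sUnion_countable (U n) (hU n).1
    rw [(hU n).2] at hTeq
    have hTne : T.Nonempty := by
      rcases T.eq_empty_or_nonempty with rfl | h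
      · simp at hTeq
        exact absurd (mem_univ x0) (by rw [← hTeq]; exact id)
      · exact h
    obtain ⟨W, hW⟩ := hTc.exists_eq_range hTne
    refine ⟨W, fun k => hTU (by rw [hW]; exact mem_range_self k), ?_⟩
    rw [← sUnion_range, ← hW, hTeq]
  choose W hWU hWeq using hW
  have hcov : ∀ x n, ∃ k, x ∈ W n k := fun x n => by
    have : x ∈ ⋃ k, W n k := by rw [hWeq n]; trivial
    simpa using this
  let f : X → ℕ → ℕ := fun x n => Nat.find (hcov x n)
  set V : Set X := ⋃ n, u n with hV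
  have hVo : IsOpen V := isOpen_iUnion fun n => (hU n).1 _ (huU n)
  have hDV : D ⊆ V := fun d hd => by
    have : d ∈ range e := by rw [← he]; exact mem_insert_of_mem _ hd
    obtain ⟨n, rfl⟩ := this
    exact mem_iUnion.2 ⟨n, heu n⟩
  have hR : #((f '' Vᶜ : Set (ℕ → ℕ))) < dnum := lt_of_le_of_lt mk_image_le (h V hVo hDV)
  have hnd := not_dominating hR
  simp only [Dominating, not_forall, not_exists, not_and] at hnd
  obtain ⟨g, hg⟩ := hnd
  refine ⟨fun n => insert (u n) (W n '' {k | k ≤ g n}), fun n => ⟨?_, ?_⟩, ?_⟩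
  · rintro s (rfl | ⟨k, -, rfl⟩)
    · exact huU n
    · exact hWU n k
  · exact (((finite_le_nat (g n)).image _).insert _)
  · ext x
    simp only [mem_iUnion, mem_univ, iff_true]
    by_cases hx : x ∈ V
    · obtain ⟨n, hn⟩ := mem_iUnion.1 hx
      exact ⟨n, u n, mem_insert _ _, hn⟩
    · have := hg (f x) (mem_image_of_mem _ hx)
      rw [not_eventually] at this
      obtain ⟨n, hn⟩ := this.exists
      rw [not_le] at hn
      exact ⟨n, W n (f x n), mem_insert_of_mem _ (mem_image_of_mem _ hn.le),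
        Nat.find_spec (hcov x n)⟩

end Pool.Agent.Lib.MP_ab9ad9_lc
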