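import Pool.Agent.Lib.MP_ab9ad9_lc.Reg98

set_option autoImplicit false

open Cardinal Set Topology Filter

namespace Pool.Agent.Lib.MP_ab9ad9_lc

/-- The regular case. -/
theorem exists_menger_reg (hr : dnum.IsRegular) :
    ∃ G : AddSubgroup (ℕ → ℤ), #G = dnum ∧ Menger G := by
  classical
  obtain ⟨f, hf⟩ := exists_domf
  obtain ⟨a, ha'⟩ := exists_seqa f
  have ha : SeqA f a := ha'
  have hainj : ∀ i j, j < i → a i ≠ a j := by
    intro i j hji heq
    obtain ⟨n, hn⟩ := (ha i).2.2 j hji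
    obtain ⟨h1, h2⟩ := nx_mem (ha j).1 n
    exact hn _ h2 (Nat.lt_succ_self _) (heq ▸ h1)
  have hxinj : Function.Injective (xa a) := by
    have haux : Function.Injective a := by
      intro i j hij
      rcases lt_trichotomy i j with h | h | h
      · exact absurd hij.symm (hainj j i h)
      · exact h
      · exact absurd hij (hainj i j h)
    intro i j hij
    apply haux
    ext m
    have := congrFun hij m
    unfold xa at this
    by_cases h1 : m ∈ a i <;> by_cases h2 : m ∈ a j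
    · exact ⟨fun _ => h2, fun _ => h1⟩
    · rw [Set.indicator_of_mem h1, Set.indicator_of_notMem h2] at this
      simp at this
    · rw [Set.indicator_of_notMem h1, Set.indicator_of_mem h2] at this
      simp at this
    · exact ⟨fun h => absurd h h1, fun h => absurd h h2⟩
  refine ⟨(GA a).toAddSubgroup, ?_, ?_⟩
  · apply le_antisymm
    · have h1 : (GA a : Set (ℕ → ℤ)) ⊆ range fun q : Fin0 × (II →₀ ℤ) =>
          (q.1 : ℕ → ℤ) + q.2.sum fun k n => n • xa a k := by
        intro g hg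
        obtain ⟨d, hd, y, hy, rfl⟩ :=
          Submodule.mem_sup.1 (show g ∈ Fin0 ⊔ Submodule.span ℤ (range (xa a)) from hg)
        obtain ⟨F, rfl⟩ := Finsupp.mem_span_range_iff_exists_finsupp.1 hy
        exact ⟨(⟨d, hd⟩, F), rfl⟩
      have h2 : #(GA a : Set (ℕ → ℤ)) ≤ dnum := by
        refine le_trans (mk_le_mk_of_subset h1) (le_trans mk_range_le ?_)
        have : Infinite II := by
          rw [Cardinal.infinite_iff, mk_II]; exact aleph0_lt_dnum.le
        rw [Cardinal.mk_prod, Cardinal.lift_id, Cardinal.lift_id, Cardinal.mk_finsupp_of_infinite,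
          mk_II, Cardinal.mk_int, max_eq_left aleph0_lt_dnum.le]
        exact le_trans (mul_le_mul_left mk_fin0_le _)
          (by rw [Cardinal.aleph0_mul_eq aleph0_lt_dnum.le])
      exact h2
    · rw [← mk_II]
      refine Cardinal.mk_le_of_injective (f := fun i => (⟨xa a i, xa_mem i⟩ : (GA a).toAddSubgroup)) ?_
      intro i j hij
      exact hxinj (congrArg Subtype.val hij)
  · intro U hU
    have hsc0 : SecondCountableTopology (ℕ → ℤ) := inferInstance
    have hsc : SecondCountableTopology (GA a).toAddSubgroup := Topology.IsEmbedding.subtypeVal.secondCountableTopology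
    have hW : ∀ n, ∃ W : ℕ → Set (GA a).toAddSubgroup, (∀ k, W k ∈ U n) ∧ ⋃ k, W k = Set.univ := fun n => by
      obtain ⟨T, hTc, hTU, hTeq⟩ := TopologicalSpace.isOpen_sUnion_countable (U n) (hU n).1
      rw [(hU n).2] at hTeq
      have hTne : T.Nonempty := by
        rcases T.eq_empty_or_nonempty with rfl | h
        · rw [sUnion_empty] at hTeq
          exact absurd (mem_univ (0 : (GA a).toAddSubgroup)) (by rw [← hTeq]; exact id)
        · exact h
      obtain ⟨W, hW⟩ := hTc.exists_eq_range hTne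
      refine ⟨W, fun k => hTU (by rw [hW]; exact mem_range_self k), ?_⟩
      rw [← sUnion_range, ← hW, hTeq]
    choose W hWU hWeq using hW
    have hcov : ∀ (x : (GA a).toAddSubgroup) (n : ℕ), ∃ k, x ∈ W n k := fun x n => by
      have : x ∈ ⋃ k, W n k := by rw [hWeq n]; trivial
      simpa using this
    let φ : (ℕ → ℤ) → ℕ → ℕ := fun z n =>
      if hz : z ∈ GA a then Nat.find (hcov ⟨z, hz⟩ n) else 0
    have hφ : ∀ (z : ℕ → ℤ) (hz : z ∈ GA a) (n : ℕ), (⟨z, hz⟩ : (GA a).toAddSubgroup) ∈ W n (φ z n) := by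
      intro z hz n
      have : φ z n = Nat.find (hcov ⟨z, hz⟩ n) := by
        simp only [φ, dif_pos hz]
      rw [this]
      exact Nat.find_spec (hcov ⟨z, hz⟩ n)
    have hLB : LB a φ := by
      intro y hy n
      obtain ⟨V, hV, hVW⟩ := isOpen_induced_iff.1 ((hU n).1 _ (hWU n (φ y n)))
      have hyV : y ∈ V := by
        have := hφ y hy n
        rw [← hVW] at this
        exact this
      obtain ⟨_, ⟨y', k, rfl⟩, hyk, hkV⟩ :=
        (PiNat.isTopologicalBasis_cylinders (fun _ => ℤ)).exists_subset_of_mem_open hyV hV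
      refine ⟨max k (φ y n), fun z hz hzy => ?_⟩
      have hzV : z ∈ V := hkV (PiNat.mem_cylinder_iff.2 fun m hm => by
        rw [hzy m (lt_of_lt_of_le hm (le_max_left _ _)), PiNat.mem_cylinder_iff.1 hyk m hm])
      have hzW : (⟨z, hz⟩ : (GA a).toAddSubgroup) ∈ W n (φ y n) := by
        rw [← hVW]; exact hzV
      have : φ z n = Nat.find (hcov ⟨z, hz⟩ n) := by
        simp only [φ, dif_pos hz]
      rw [this]
      exact le_trans (Nat.find_min' _ hzW) (le_max_right _ _)
    obtain ⟨F, hF⟩ := good_GA hr hf ha φ hLB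
    refine ⟨fun n => W n '' {k | k ≤ F n}, fun n => ⟨?_, (finite_le_nat (F n)).image _⟩, ?_⟩
    · rintro s ⟨k, -, rfl⟩
      exact hWU n k
    · ext x
      simp only [mem_iUnion, mem_univ, iff_true]
      obtain ⟨n, hn⟩ := (hF x.1 x.2).nonempty ha
      exact ⟨n, W n (φ x.1 n), mem_image_of_mem _ hn, hφ x.1 x.2 n⟩

/-- The bounded sequences. -/
def BB : AddSubgroup (ℕ → ℤ) where
  carrier := {z | ∃ k : ℤ, ∀ n, |z n| ≤ k}
  add_mem' := by
    rintro x y ⟨k, hk⟩ ⟨l, hl⟩
    exact ⟨k + l, fun n => le_trans (abs_add_le _ _) (add_le_add (hk n) (hl n))⟩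
  zero_mem' := ⟨0, fun n => by simp⟩
  neg_mem' := by
    rintro x ⟨k, hk⟩
    exact ⟨k, fun n => by simpa using hk n⟩

theorem dnum_le_continuum : dnum ≤ 𝔠 := by
  have h : dnum ≤ #(Set.univ : Set (ℕ → ℕ)) :=
    csInf_le' ⟨Set.univ, fun g => ⟨g, mem_univ _, Eventually.of_forall fun n => le_rfl⟩, rfl⟩
  refine le_trans h ?_
  rw [Cardinal.mk_univ]
  simp

theorem mk_BB : #BB = 𝔠 := by
  apply le_antisymm
  · refine le_trans (Cardinal.mk_le_of_injective (f := fun g : BB => (g : ℕ → ℤ))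
      Subtype.val_injective) ?_
    simp
  · have h1 : 𝔠 = #(Set ℕ) := by simp
    rw [h1]
    classical
    refine Cardinal.mk_le_of_injective (f := fun s : Set ℕ =>
      (⟨Set.indicator s 1, 1, fun n => ?_⟩ : BB)) ?_
    · by_cases h : n ∈ s
      · rw [Set.indicator_of_mem h]; simp
      · rw [Set.indicator_of_notMem h]; simp
    · intro s t hst
      have h2 : Set.indicator s (1 : ℕ → ℤ) = Set.indicator t 1 := congrArg Subtype.val hst
      ext m
      have := congrFun h2 m
      by_cases h1 : m ∈ s <;> by_cases h2 : m ∈ t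
      · exact ⟨fun _ => h2, fun _ => h1⟩
      · rw [Set.indicator_of_mem h1, Set.indicator_of_notMem h2] at this
        simp at this
      · rw [Set.indicator_of_notMem h1, Set.indicator_of_mem h2] at this
        simp at this
      · exact ⟨fun h => absurd h h1, fun h => absurd h h2⟩

theorem menger_BB : Menger BB := by
  intro U hU
  have hK : ∀ n : ℕ, IsCompact {z : BB | ∀ m, |(z : ℕ → ℤ) m| ≤ (n : ℤ)} := by
    intro n
    rw [Topology.IsEmbedding.subtypeVal.isCompact_iff]
    have h1 : ((Subtype.val : BB → ℕ → ℤ) '' {z : BB | ∀ m, |(z : ℕ → ℤ) m| ≤ (n : ℤ)}) =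
        Set.univ.pi fun _ : ℕ => Set.Icc (-(n : ℤ)) n := by
      ext z
      constructor
      · rintro ⟨w, hw, rfl⟩ m -
        exact abs_le.1 (hw m)
      · intro hz
        have hz' : ∀ m, |z m| ≤ (n : ℤ) := fun m => abs_le.2 (hz m (mem_univ m))
        exact ⟨⟨z, n, hz'⟩, hz', rfl⟩
    rw [h1]
    exact isCompact_univ_pi fun _ => (Set.finite_Icc _ _).isCompact
  have hF : ∀ n, ∃ F : Set (Set BB), F ⊆ U n ∧ F.Finite ∧
      {z : BB | ∀ m, |(z : ℕ → ℤ) m| ≤ (n : ℤ)} ⊆ ⋃₀ F := by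
    intro n
    obtain ⟨F, hFU, hFf, hFc⟩ := (hK n).elim_finite_subcover_image (b := U n) (c := id)
      (fun u hu => (hU n).1 u hu) (fun z _ => by
        have h2 : z ∈ ⋃₀ U n := by rw [(hU n).2]; trivial
        obtain ⟨u, hu, hzu⟩ := h2
        exact mem_iUnion₂.2 ⟨u, hu, hzu⟩)
    refine ⟨F, hFU, hFf, fun z hz => ?_⟩
    obtain ⟨u, hu, hzu⟩ := mem_iUnion₂.1 (hFc hz)
    exact ⟨u, hu, hzu⟩
  choose F hFU hFf hFc using hF
  refine ⟨F, fun n => ⟨hFU n, hFf n⟩, ?_⟩
  ext z
  simp only [mem_iUnion, mem_univ, iff_true]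
  obtain ⟨k, hk⟩ := z.2
  refine ⟨k.toNat, hFc k.toNat fun m => ?_⟩
  exact le_trans (hk m) (Int.self_le_toNat k)

/-- There is a Menger subgroup of cardinality `𝔡`, unless `cov(M) < 𝔡 < 𝔠` and `𝔡` is singular. -/
theorem menger_or : (∃ G : AddSubgroup (ℕ → ℤ), #G = dnum ∧ Menger G) ∨
    (covM < dnum ∧ dnum < 𝔠 ∧ ¬ dnum.IsRegular) := by
  by_cases h1 : dnum ≤ covM
  · obtain ⟨G, h, hG, -⟩ := exists_menger h1
    exact Or.inl ⟨G, h, hG⟩
  by_cases h2 : dnum.IsRegular
  · exact Or.inl (exists_menger_reg h2)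
  by_cases h3 : dnum < 𝔠
  · exact Or.inr ⟨not_le.1 h1, h3, h2⟩
  · have h4 : dnum = 𝔠 := le_antisymm dnum_le_continuum (not_lt.1 h3)
    exact Or.inl ⟨BB, by rw [mk_BB, h4], menger_BB⟩

end Pool.Agent.Lib.MP_ab9ad9_lc
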