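import Pool.Agent.Lib.MP_ab9ad9_lc.Main98

set_option autoImplicit false

open Cardinal Set Topology Filter

namespace Pool.Agent.Lib.MP_ab9ad9_lc

/-- A family of `𝔡` functions that is dominating everywhere. -/
theorem exists_domf : ∃ f : II → ℕ → ℕ, ∀ s : ℕ → ℕ, ∃ i, ∀ n, s n ≤ f i n := by
  classical
  obtain ⟨D, hD, hc⟩ := exists_dominating
  have hcard : #II = #(D × ℕ) := by
    rw [mk_II, Cardinal.mk_prod, Cardinal.lift_id, Cardinal.lift_id, hc, Cardinal.mk_nat,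
      Cardinal.mul_aleph0_eq aleph0_lt_dnum.le]
  obtain ⟨e⟩ := Cardinal.eq.1 hcard
  refine ⟨fun i n => (e i).1.1 n + (e i).2, fun s => ?_⟩
  obtain ⟨f, hf, hev⟩ := hD s
  obtain ⟨N, hN⟩ := eventually_atTop.1 hev
  refine ⟨e.symm (⟨f, hf⟩, ∑ k ∈ Finset.range N, s k), fun n => ?_⟩
  show s n ≤ (e (e.symm (⟨f, hf⟩, ∑ k ∈ Finset.range N, s k))).1.1 n +
    (e (e.symm (⟨f, hf⟩, ∑ k ∈ Finset.range N, s k))).2
  rw [Equiv.apply_symm_apply]
  by_cases h : n < N
  · have : s n ≤ ∑ k ∈ Finset.range N, s k :=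
      Finset.single_le_sum (f := s) (fun _ _ => Nat.zero_le _) (Finset.mem_range.2 h)
    simp only
    omega
  · have := hN n (not_lt.1 h)
    simp only
    omega

theorem exists_not_dom {K : Set (ℕ → ℕ)} (h : #K < dnum) :
    ∃ g : ℕ → ℕ, ∀ k ∈ K, ∀ N, ∃ n, N ≤ n ∧ k n < g n := by
  have hnd := not_dominating h
  simp only [Dominating, not_forall, not_exists, not_and] at hnd
  obtain ⟨g, hg⟩ := hnd
  refine ⟨g, fun k hk N => ?_⟩
  have h1 := hg k hk
  rw [not_eventually] at h1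
  obtain ⟨n, hn, hlt⟩ := (frequently_atTop.1 h1) N
  exact ⟨n, hn, not_le.1 hlt⟩

/-- A monotone majorant. -/
def mx (k : ℕ → ℕ) (n : ℕ) : ℕ := (∑ m ∈ Finset.range (n + 1), k m) + n

theorem mx_mono (k : ℕ → ℕ) {m n : ℕ} (h : m ≤ n) : mx k m ≤ mx k n := by
  unfold mx
  have : ∑ j ∈ Finset.range (m + 1), k j ≤ ∑ j ∈ Finset.range (n + 1), k j :=
    Finset.sum_le_sum_of_subset (Finset.range_mono (by omega))
  omega

theorem le_mx (k : ℕ → ℕ) (n : ℕ) : k n ≤ mx k n := by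
  unfold mx
  have : k n ≤ ∑ j ∈ Finset.range (n + 1), k j :=
    Finset.single_le_sum (f := k) (fun _ _ => Nat.zero_le _) (Finset.mem_range.2 (by omega))
  omega

theorem gap {K : Set (ℕ → ℕ)} (h : #K < dnum) :
    ∃ a : Set ℕ, a.Infinite ∧ ∀ k ∈ K, ∀ N, ∃ b, N ≤ b ∧ ∀ m, b < m → m < k b → m ∉ a := by
  have h1 : #((fun (k : ℕ → ℕ) n => mx k (mx k n)) '' K : Set (ℕ → ℕ)) < dnum :=
    lt_of_le_of_lt mk_image_le h
  obtain ⟨g0, hg0⟩ := exists_not_dom h1
  set g : ℕ → ℕ := fun n => mx g0 n + 1 with hg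
  have gmono : ∀ {m n : ℕ}, m ≤ n → g m ≤ g n := fun h => by
    have := mx_mono g0 h
    simp only [hg]; omega
  have ggt : ∀ n, n < g n := fun n => by
    simp only [hg, mx]; omega
  have gge : ∀ n, g0 n < g n := fun n => by
    have := le_mx g0 n
    simp only [hg]; omega
  set b : ℕ → ℕ := fun l => g^[l] 0 with hb
  have b0 : b 0 = 0 := rfl
  have bs : ∀ l, b (l + 1) = g (b l) := fun l => Function.iterate_succ_apply' g l 0
  have bmono : StrictMono b := strictMono_nat_of_lt_succ fun l => by rw [bs]; exact ggt _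
  refine ⟨range b, infinite_range_of_injective bmono.injective, fun k hk N => ?_⟩
  obtain ⟨n, hn, hlt⟩ := hg0 _ (mem_image_of_mem _ hk) (b N)
  have hex : ∃ l, n < b l := ⟨n + 1, lt_of_lt_of_le (Nat.lt_succ_self n) (bmono.le_apply)⟩
  classical
  set l0 := Nat.find hex with hl0
  have hl0s : n < b l0 := Nat.find_spec hex
  have hl0p : l0 ≠ 0 := by
    intro h0
    rw [h0, b0] at hl0s
    omega
  obtain ⟨l, hl⟩ := Nat.exists_eq_succ_of_ne_zero hl0p
  have hbl : b l ≤ n := by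
    by_contra hcon
    have := Nat.find_min' hex (not_le.1 hcon)
    omega
  have hNl : N ≤ l := by
    by_contra hcon
    have h2 : l0 ≤ N := by omega
    have h3 : b l0 ≤ b N := bmono.monotone h2
    omega
  by_cases hc1 : ∀ m, b l < m → m < k (b l) → m ∉ range b
  · exact ⟨b l, le_trans hNl bmono.le_apply, hc1⟩
  · by_cases hc2 : ∀ m, b (l + 1) < m → m < k (b (l + 1)) → m ∉ range b
    · exact ⟨b (l + 1), le_trans (by omega) (bmono.le_apply (x := l + 1)), hc2⟩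
    · exfalso
      push Not at hc1 hc2
      obtain ⟨m, hm1, hm2, j, rfl⟩ := hc1
      obtain ⟨m', hm1', hm2', j', rfl⟩ := hc2
      have e1 : l < j := bmono.lt_iff_lt.1 hm1
      have e2 : l + 1 < j' := bmono.lt_iff_lt.1 hm1'
      have e3 : b (l + 1) ≤ b j := bmono.monotone (by omega)
      have e4 : b (l + 2) ≤ b j' := bmono.monotone (by omega)
      have e5 : k (b l) ≤ mx k n := le_trans (le_mx k _) (mx_mono k hbl)
      have e6 : b (l + 1) ≤ mx k n := by omega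
      have e7 : k (b (l + 1)) ≤ mx k (mx k n) := le_trans (le_mx k _) (mx_mono k e6)
      have e8 : g n ≤ b (l + 2) := by
        rw [bs (l + 1)]
        apply gmono
        have : l0 = l + 1 := hl
        rw [← this]
        omega
      have e9 := gge n
      have e10 : mx k (mx k n) < g0 n := hlt
      omega

theorem stage {𝒜 : Set (Set ℕ)} {H : Set (ℕ → ℕ)} (hA : #𝒜 < dnum) (hH : #H < dnum) :
    ∃ a : Set ℕ, a.Infinite ∧ ∀ A ∈ 𝒜, A.Infinite → ∀ h ∈ H, ∀ N, ∃ n, N ≤ n ∧ n ∈ A ∧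
      ∀ m, n ≤ m → m < h n → m ∉ a := by
  have h1 : #((fun (p : Set ℕ × (ℕ → ℕ)) (b : ℕ) => p.2 (sInf {n | n ∈ p.1 ∧ b < n}) + 1) ''
      (𝒜 ×ˢ H) : Set (ℕ → ℕ)) < dnum := by
    refine lt_of_le_of_lt mk_image_le ?_
    rw [Cardinal.mk_setProd]
    exact Cardinal.mul_lt_of_lt aleph0_lt_dnum.le hA hH
  obtain ⟨a, ha, hgap⟩ := gap h1
  refine ⟨a, ha, fun A hAm hAi h hh N => ?_⟩
  obtain ⟨b, hb, hgap'⟩ := hgap _ (mem_image_of_mem _ (mk_mem_prod hAm hh)) N
  have hne : {n | n ∈ A ∧ b < n}.Nonempty := by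
    obtain ⟨n, hn, hbn⟩ := hAi.exists_gt b
    exact ⟨n, hn, hbn⟩
  have hmem : sInf {n | n ∈ A ∧ b < n} ∈ {n | n ∈ A ∧ b < n} := Nat.sInf_mem hne
  set n := sInf {n | n ∈ A ∧ b < n} with hn
  refine ⟨n, le_trans hb hmem.2.le, hmem.1, fun m hm1 hm2 => hgap' m (lt_of_lt_of_le hmem.2 hm1) ?_⟩
  show m < h n + 1
  omega

theorem mk_Iic_lt' (i : II) : #{j : II // j ≤ i} < dnum := mk_Iic_lt i

theorem mk_list_lt {α : Type} (h : #α < dnum) : #(List α) < dnum :=
  lt_of_le_of_lt (Cardinal.mk_list_le_max α) (max_lt aleph0_lt_dnum h)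

/-- The finite intersections of the sets of places of long gaps of the sets chosen before. -/
def As (f : II → ℕ → ℕ) (i : II) (rec : ∀ j, j < i → Set ℕ)
    (s : List ({k : II // k ≤ i} × {j : II // j < i})) : Set ℕ :=
  {n | ∀ p ∈ s, ∀ m, n ≤ m → m < f p.1.1 n → m ∉ rec p.2.1 p.2.2}

/-- The next element of `a`. -/
noncomputable def nx (a : Set ℕ) (n : ℕ) : ℕ := sInf {m | m ∈ a ∧ n ≤ m}

theorem stepa (f : II → ℕ → ℕ) (i : II) (rec : ∀ j, j < i → Set ℕ) :
    ∃ a : Set ℕ, a.Infinite ∧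
      (∀ s, (As f i rec s).Infinite → ∀ t : List {k : II // k ≤ i}, ∀ N, ∃ n, N ≤ n ∧
        n ∈ As f i rec s ∧ ∀ m, n ≤ m → m < (t.map fun k => f k.1 n).sum → m ∉ a) ∧
      (∀ j (hj : j < i), ∃ n, ∀ m, n ≤ m → m < nx (rec j hj) n + 1 → m ∉ a) := by
  set H : Set (ℕ → ℕ) := range (fun (t : List {k : II // k ≤ i}) (n : ℕ) =>
      (t.map fun k => f k.1 n).sum) ∪
      range (fun (j : {j : II // j < i}) (n : ℕ) => nx (rec j.1 j.2) n + 1) with hHdef
  have hA : #(range (As f i rec)) < dnum := by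
    refine lt_of_le_of_lt mk_range_le (mk_list_lt ?_)
    rw [Cardinal.mk_prod, Cardinal.lift_id, Cardinal.lift_id]
    exact Cardinal.mul_lt_of_lt aleph0_lt_dnum.le (mk_Iic_lt' i) (mk_Iio_lt i)
  have hH : #H < dnum := by
    refine lt_of_le_of_lt (mk_union_le _ _) (Cardinal.add_lt_of_lt aleph0_lt_dnum.le ?_ ?_)
    · exact lt_of_le_of_lt mk_range_le (mk_list_lt (mk_Iic_lt' i))
    · exact lt_of_le_of_lt mk_range_le (mk_Iio_lt i)
  obtain ⟨a, ha, hst⟩ := stage hA hH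
  refine ⟨a, ha, fun s hs t N => ?_, fun j hj => ?_⟩
  · exact hst _ (mem_range_self s) hs _ (Or.inl (mem_range_self t)) N
  · have hu : (As f i rec []).Infinite := by
      have : As f i rec [] = Set.univ := by
        ext n; simp [As]
      rw [this]
      exact infinite_univ
    obtain ⟨n, -, -, hn⟩ := hst _ (mem_range_self []) hu _
      (Or.inr (mem_range_self (⟨j, hj⟩ : {j : II // j < i}))) 0
    exact ⟨n, hn⟩

theorem exists_seqa (f : II → ℕ → ℕ) :
    ∃ a : II → Set ℕ, ∀ i, (a i).Infinite ∧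
      (∀ s, (As f i (fun j _ => a j) s).Infinite → ∀ t : List {k : II // k ≤ i}, ∀ N, ∃ n, N ≤ n ∧
        n ∈ As f i (fun j _ => a j) s ∧ ∀ m, n ≤ m → m < (t.map fun k => f k.1 n).sum → m ∉ a i) ∧
      (∀ j, j < i → ∃ n, ∀ m, n ≤ m → m < nx (a j) n + 1 → m ∉ a i) := by
  let F : ∀ i : II, (∀ j, j < i → Set ℕ) → Set ℕ := fun i rec => Classical.choose (stepa f i rec)
  let a : II → Set ℕ := (wellFounded_lt (α := II)).fix F
  refine ⟨a, fun i => ?_⟩
  have h1 : a i = F i fun j _ => a j := WellFounded.fix_eq _ _ _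
  rw [h1]
  exact Classical.choose_spec (stepa f i fun j _ => a j)

end Pool.Agent.Lib.MP_ab9ad9_lc
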