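import Pool.Agent.Lib.MP_ab9ad9_lc.Ab98

set_option autoImplicit false

open Cardinal Set Topology Filter

namespace Pool.Agent.Lib.MP_ab9ad9_lc

/-- The sequences of finite support. -/
def Fin0 : Submodule ℤ (ℕ → ℤ) where
  carrier := {z | ∃ M, ∀ m, M ≤ m → z m = 0}
  add_mem' := by
    rintro a b ⟨M, hM⟩ ⟨N, hN⟩
    exact ⟨max M N, fun m hm => by
      simp [hM m (le_trans (le_max_left _ _) hm), hN m (le_trans (le_max_right _ _) hm)]⟩
  zero_mem' := ⟨0, fun _ _ => rfl⟩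
  smul_mem' := by
    rintro c a ⟨M, hM⟩
    exact ⟨M, fun m hm => by simp [hM m hm]⟩

/-- The sequences `z` such that every `n ≥ 1` divides almost all `z m`. -/
def AA : Submodule ℤ (ℕ → ℤ) where
  carrier := {z | ∀ n : ℕ, 0 < n → ∃ M, ∀ m, M ≤ m → (n : ℤ) ∣ z m}
  add_mem' := by
    rintro a b ha hb n hn
    obtain ⟨M, hM⟩ := ha n hn
    obtain ⟨N, hN⟩ := hb n hn
    exact ⟨max M N, fun m hm => dvd_add (hM m (le_trans (le_max_left _ _) hm))
      (hN m (le_trans (le_max_right _ _) hm))⟩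
  zero_mem' := fun n _ => ⟨0, fun _ _ => dvd_zero _⟩
  smul_mem' := by
    rintro c a ha n hn
    obtain ⟨M, hM⟩ := ha n hn
    exact ⟨M, fun m hm => by
      simp only [Pi.smul_apply, smul_eq_mul]
      exact Dvd.dvd.mul_left (hM m hm) c⟩

theorem fin0_le_AA : Fin0 ≤ AA := by
  rintro z ⟨M, hM⟩ n _
  exact ⟨M, fun m hm => by rw [hM m hm]; exact dvd_zero _⟩

theorem fin0_countable : Countable Fin0 := by
  have h : (Fin0 : Set (ℕ → ℤ)) ⊆
      range (fun l : List ℤ => fun m => l.getD m 0) := by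
    rintro z ⟨M, hM⟩
    refine ⟨(List.range M).map z, ?_⟩
    funext m
    by_cases hm : m < M
    · simp [List.getD, hm]
    · simp [List.getD, hm, hM m (not_lt.1 hm)]
  exact ((countable_range _).mono h).to_subtype

/-- `ℕ` as the set of pairs of an integer and a truth value. -/
noncomputable def ph : ℕ ≃ ℤ × Bool := (nonempty_equiv_of_countable (α := ℕ) (β := ℤ × Bool)).some

noncomputable def cnt (c : ℕ → ℕ) (m : ℕ) : ℕ := Nat.count (fun i => (ph (c i)).2 = true) m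

noncomputable def psi (c : ℕ → ℕ) : ℕ → ℤ := fun m => (ph (c m)).1 * ((cnt c m).factorial : ℤ)

theorem cnt_congr {c c' : ℕ → ℕ} {m : ℕ} (h : ∀ i < m, c i = c' i) : cnt c m = cnt c' m := by
  induction m with
  | zero => simp [cnt]
  | succ m ih =>
    have h1 := ih fun i hi => h i (by omega)
    unfold cnt at h1 ⊢
    rw [Nat.count_succ, Nat.count_succ, h1, h m (by omega)]

theorem psi_congr {c c' : ℕ → ℕ} {m : ℕ} (h : ∀ i < m + 1, c i = c' i) : psi c m = psi c' m := by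
  unfold psi
  rw [cnt_congr (c := c) (c' := c') fun i hi => h i (by omega), h m (by omega)]

theorem cnt_eq {c : ℕ → ℕ} {k m : ℕ} (hkm : k ≤ m) (h : ∀ i, k ≤ i → (ph (c i)).2 = false) :
    cnt c m = cnt c k := by
  induction m, hkm using Nat.le_induction with
  | base => rfl
  | succ m hm ih =>
    unfold cnt at ih ⊢
    rw [Nat.count_succ, ih, h m hm]
    simp

/-- The sequences with infinitely many `true`. -/
def TT : Set (ℕ → ℕ) := {c | ∀ N, ∃ i, N ≤ i ∧ (ph (c i)).2 = true}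

def EE (n : ℤ) (h : ℕ → ℤ) (r : Fin0 → ℕ) : Set (ℕ → ℕ) :=
  {c | ∃ d : Fin0, ∀ m < r d, n * psi c m + h m = (d : ℕ → ℤ) m}

theorem isOpen_of_cyl {X : Type} [TopologicalSpace X] [DiscreteTopology X] {s : Set (ℕ → X)}
    (h : ∀ c ∈ s, ∃ k, ∀ c' : ℕ → X, (∀ i < k, c' i = c i) → c' ∈ s) : IsOpen s := by
  rw [isOpen_iff_forall_mem_open]
  intro c hc
  obtain ⟨k, hk⟩ := h c hc
  refine ⟨PiNat.cylinder c k, fun c' hc' => hk c' ?_, PiNat.isOpen_cylinder _ _ _,
    PiNat.self_mem_cylinder _ _⟩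
  exact PiNat.mem_cylinder_iff.1 hc'

theorem dense_of_cyl {s : Set (ℕ → ℕ)}
    (h : ∀ (c : ℕ → ℕ) (k : ℕ), ∃ c' : ℕ → ℕ, (∀ i < k, c' i = c i) ∧ c' ∈ s) : Dense s := by
  rw [(PiNat.isTopologicalBasis_cylinders (fun _ => ℕ)).dense_iff]
  rintro o ⟨c, k, rfl⟩ -
  obtain ⟨c', h1, h2⟩ := h c k
  exact ⟨c', PiNat.mem_cylinder_iff.2 h1, h2⟩

theorem meagre_of_cyl {s : Set (ℕ → ℕ)}
    (h1 : ∀ c ∈ s, ∃ k, ∀ c' : ℕ → ℕ, (∀ i < k, c' i = c i) → c' ∈ s)
    (h2 : ∀ (c : ℕ → ℕ) (k : ℕ), ∃ c' : ℕ → ℕ, (∀ i < k, c' i = c i) ∧ c' ∈ s) :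
    IsMeagre sᶜ := by
  unfold IsMeagre
  rw [compl_compl]
  exact residual_of_dense_open (isOpen_of_cyl h1) (dense_of_cyl h2)

theorem meagre_TT : IsMeagre TTᶜ := by
  have : TTᶜ = ⋃ N : ℕ, {c : ℕ → ℕ | ∃ i, N ≤ i ∧ (ph (c i)).2 = true}ᶜ := by
    ext c
    simp [TT]
  rw [this]
  refine isMeagre_iUnion fun N => meagre_of_cyl ?_ ?_
  · rintro c ⟨i, hi, hc⟩
    exact ⟨i + 1, fun c' hc' => ⟨i, hi, by rw [hc' i (by omega)]; exact hc⟩⟩
  · intro c k
    refine ⟨fun i => if i < k then c i else ph.symm (0, true), fun i hi => by simp [hi],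
      max N k, le_max_left _ _, ?_⟩
    have : ¬ (max N k < k) := by omega
    simp

theorem meagre_ne (h : ℕ → ℤ) : IsMeagre {c : ℕ → ℕ | psi c = h} := by
  have : {c : ℕ → ℕ | psi c = h} = {c : ℕ → ℕ | psi c ≠ h}ᶜ := by
    ext c; simp
  rw [this]
  refine meagre_of_cyl ?_ ?_
  · intro c hc
    obtain ⟨m, hm⟩ := Function.ne_iff.1 hc
    refine ⟨m + 1, fun c' hc' => Function.ne_iff.2 ⟨m, ?_⟩⟩
    rw [psi_congr (c := c') (c' := c) hc']
    exact hm
  · intro c k
    refine ⟨fun i => if i < k then c i else ph.symm (if h k = 0 then 1 else 0, true),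
      fun i hi => by simp [hi], Function.ne_iff.2 ⟨k, ?_⟩⟩
    unfold psi
    simp only [lt_irrefl, if_false, Equiv.apply_symm_apply]
    split_ifs with h0
    · rw [h0, one_mul]
      exact_mod_cast Nat.factorial_ne_zero _
    · rw [zero_mul]
      exact fun h1 => h0 h1.symm

theorem meagre_EE {n : ℤ} (hn : n ≠ 0) {h : ℕ → ℤ} (hh : h ∈ AA) (r : Fin0 → ℕ) :
    IsMeagre (EE n h r)ᶜ := by
  refine meagre_of_cyl ?_ ?_
  · rintro c ⟨d, hd⟩
    refine ⟨r d, fun c' hc' => ⟨d, fun m hm => ?_⟩⟩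
    rw [psi_congr (c := c') (c' := c) fun i hi => hc' i (by omega)]
    exact hd m hm
  · intro c k
    set p := cnt c k with hp
    have hN : 0 < n.natAbs * p.factorial :=
      Nat.mul_pos (Int.natAbs_pos.2 hn) (Nat.factorial_pos _)
    obtain ⟨M, hM⟩ := hh _ hN
    set c2 : ℕ → ℕ := fun i => if i < k then c i else
      if i < M then ph.symm (0, false) else ph.symm (-(h i) / (n * p.factorial), false) with hc2
    have h2 : ∀ i, k ≤ i → (ph (c2 i)).2 = false := by
      intro i hi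
      have : ¬ i < k := by omega
      simp only [hc2, this, if_false]
      split_ifs <;> simp
    have h3 : cnt c2 k = p := cnt_congr fun i hi => by simp [hc2, hi]
    have h4 : ∀ m, max k M ≤ m → n * psi c2 m + h m = 0 := by
      intro m hm
      have hk : k ≤ m := le_trans (le_max_left _ _) hm
      have hM' : M ≤ m := le_trans (le_max_right _ _) hm
      have e1 : ¬ m < k := by omega
      have e2 : ¬ m < M := by omega
      have e3 : (n * p.factorial) ∣ -(h m) := by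
        have := hM m hM'
        rw [dvd_neg]
        rw [← Int.natAbs_dvd] 
        rw [Int.natAbs_mul, Int.natAbs_natCast]
        exact this
      unfold psi
      rw [cnt_eq hk h2, h3]
      simp only [hc2, e1, e2, if_false, Equiv.apply_symm_apply]
      obtain ⟨q, hq⟩ := e3
      have hne : (n * p.factorial : ℤ) ≠ 0 :=
        mul_ne_zero hn (by exact_mod_cast Nat.factorial_ne_zero _)
      rw [hq, Int.mul_ediv_cancel_left _ hne]
      linarith
    refine ⟨c2, fun i hi => by simp [hc2, hi],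
      ⟨⟨fun m => n * psi c2 m + h m, max k M, h4⟩, fun m _ => rfl⟩⟩

theorem psi_mem_AA {c : ℕ → ℕ} (hc : c ∈ TT) : psi c ∈ AA := by
  intro n hn
  have h : ∀ n, ∃ M, n ≤ cnt c M := by
    intro n
    induction n with
    | zero => exact ⟨0, Nat.zero_le _⟩
    | succ n ih =>
      obtain ⟨M, hM⟩ := ih
      obtain ⟨i, hi, hci⟩ := hc M
      refine ⟨i + 1, ?_⟩
      have h1 : cnt c M ≤ cnt c i := Nat.count_monotone _ hi
      have h2 : cnt c (i + 1) = cnt c i + 1 := by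
        unfold cnt
        rw [Nat.count_succ]
        simp [hci]
      omega
  obtain ⟨M, hM⟩ := h n
  refine ⟨M, fun m hm => ?_⟩
  have h1 : n ≤ cnt c m := le_trans hM (Nat.count_monotone _ hm)
  have h2 : (n : ℤ) ∣ ((cnt c m).factorial : ℤ) := by
    exact_mod_cast Nat.dvd_factorial hn h1
  exact Dvd.dvd.mul_left h2 _

end Pool.Agent.Lib.MP_ab9ad9_lc
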