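import Pool.Agent.Lib.MP_ab9ad9_lc.Gr98

set_option autoImplicit false

open Cardinal Set Topology Filter

namespace Pool.Agent.Lib.MP_ab9ad9_lc

/-- The index set: a well-order of type `𝔡`. -/
abbrev II : Type := dnum.ord.ToType

theorem mk_II : #II = dnum := Cardinal.mk_ord_toType _

/-- A family of `𝔡` functions on the finitely supported sequences that is dominating everywhere. -/
theorem exists_dom : ∃ r : II → Fin0 → ℕ, ∀ s : Fin0 → ℕ, ∃ i, ∀ d, s d ≤ r i d := by
  classical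
  obtain ⟨D, hD, hc⟩ := exists_dominating
  have hcard : #II = #(D × ℕ) := by
    rw [mk_II, Cardinal.mk_prod, Cardinal.lift_id, Cardinal.lift_id, hc, Cardinal.mk_nat,
      Cardinal.mul_aleph0_eq aleph0_lt_dnum.le]
  obtain ⟨e⟩ := Cardinal.eq.1 hcard
  have := fin0_countable
  obtain ⟨code, hcode⟩ := exists_injective_nat Fin0
  refine ⟨fun i d => (e i).1.1 (code d) + (e i).2, fun s => ?_⟩
  obtain ⟨f, hf, hev⟩ := hD (Function.extend code s 0)
  obtain ⟨N, hN⟩ := eventually_atTop.1 hev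
  refine ⟨e.symm (⟨f, hf⟩, ∑ k ∈ Finset.range N, Function.extend code s 0 k), fun d => ?_⟩
  show s d ≤ (e (e.symm (⟨f, hf⟩, ∑ k ∈ Finset.range N, Function.extend code s 0 k))).1.1 (code d) +
    (e (e.symm (⟨f, hf⟩, ∑ k ∈ Finset.range N, Function.extend code s 0 k))).2
  rw [Equiv.apply_symm_apply]
  have h1 : s d = Function.extend code s 0 (code d) := (hcode.extend_apply s 0 d).symm
  rw [h1]
  by_cases h : code d < N
  · have : Function.extend code s 0 (code d) ≤ ∑ k ∈ Finset.range N, Function.extend code s 0 k :=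
      Finset.single_le_sum (f := Function.extend code s 0) (fun _ _ => Nat.zero_le _)
        (Finset.mem_range.2 h)
    simp only
    omega
  · have := hN (code d) (not_lt.1 h)
    simp only
    omega

/-- The group generated by the finitely supported sequences and the points chosen before. -/
def GS (i : II) (rec : ∀ j, j < i → ℕ → ℕ) : Set (ℕ → ℤ) :=
  range fun q : Fin0 × ({j : II // j < i} →₀ ℤ) =>
    (q.1 : ℕ → ℤ) + q.2.sum fun p n => n • psi (rec p.1 p.2)

theorem mk_Iio_lt (i : II) : #{j : II // j < i} < dnum := Cardinal.mk_Iio_toType_ord_lt i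

theorem mk_finsupp_lt {α : Type} (h : #α < dnum) : #(α →₀ ℤ) < dnum := by
  rcases isEmpty_or_nonempty α with hE | hN
  · rw [Cardinal.mk_eq_one]
    exact lt_trans one_lt_aleph0 aleph0_lt_dnum
  · rw [Cardinal.mk_finsupp_of_infinite', Cardinal.mk_int]
    exact max_lt h aleph0_lt_dnum

theorem mk_fin0_le : #Fin0 ≤ ℵ₀ := by
  have := fin0_countable
  exact Cardinal.mk_le_aleph0

theorem mk_GS_lt (i : II) (rec : ∀ j, j < i → ℕ → ℕ) : #(GS i rec) < dnum := by
  refine lt_of_le_of_lt mk_range_le ?_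
  rw [Cardinal.mk_prod, Cardinal.lift_id, Cardinal.lift_id]
  exact Cardinal.mul_lt_of_lt aleph0_lt_dnum.le (lt_of_le_of_lt mk_fin0_le aleph0_lt_dnum)
    (mk_finsupp_lt (mk_Iio_lt i))

theorem mk_Iic_lt (i : II) : #(Iic i) < dnum := by
  rw [← Set.Iio_insert]
  refine lt_of_le_of_lt Cardinal.mk_insert_le ?_
  exact Cardinal.add_lt_of_lt aleph0_lt_dnum.le (Cardinal.mk_Iio_toType_ord_lt i)
    (lt_trans one_lt_aleph0 aleph0_lt_dnum)

theorem step (hcov : dnum ≤ covM) (r : II → Fin0 → ℕ) (i : II) (rec : ∀ j, j < i → ℕ → ℕ) :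
    ∃ c : ℕ → ℕ, c ∈ TT ∧ ∀ h ∈ GS i rec, psi c ≠ h ∧
      (h ∈ AA → ∀ n : ℤ, n ≠ 0 → ∀ j ≤ i, c ∈ EE n h (r j)) := by
  classical
  let Φ : ℤ × (GS i rec) × (Iic i) → Set (ℕ → ℕ) := fun q =>
    if q.1 = 0 then TTᶜ ∪ {c | psi c = q.2.1.1}
    else if (q.2.1.1 : ℕ → ℤ) ∈ AA then (EE q.1 q.2.1.1 (r q.2.2.1))ᶜ else ∅
  have hm : ∀ s ∈ range Φ, IsMeagre s := by
    rintro s ⟨⟨n, h, j⟩, rfl⟩
    simp only [Φ]
    split_ifs with h1 h2
    · exact IsMeagre.union meagre_TT (meagre_ne _)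
    · exact meagre_EE h1 h2 _
    · exact IsMeagre.empty
  have hc : #(range Φ) < covM := by
    refine lt_of_le_of_lt mk_range_le (lt_of_lt_of_le ?_ hcov)
    rw [Cardinal.mk_prod, Cardinal.mk_prod, Cardinal.lift_id, Cardinal.lift_id, Cardinal.lift_id,
      Cardinal.lift_id, Cardinal.mk_int]
    exact Cardinal.mul_lt_of_lt aleph0_lt_dnum.le aleph0_lt_dnum
      (Cardinal.mul_lt_of_lt aleph0_lt_dnum.le (mk_GS_lt i rec) (mk_Iic_lt i))
  obtain ⟨c, hcn⟩ := exists_not_mem hm hc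
  have h0 : (0 : ℕ → ℤ) ∈ GS i rec := ⟨(0, 0), by simp⟩
  refine ⟨c, ?_, fun h hh => ⟨?_, fun hA n hn j hj => ?_⟩⟩
  · have := hcn _ ⟨(0, ⟨0, h0⟩, ⟨i, le_refl i⟩), rfl⟩
    simp only [Φ, if_true, mem_union, not_or, mem_compl_iff, not_not] at this
    exact this.1
  · have := hcn _ ⟨(0, ⟨h, hh⟩, ⟨i, le_refl i⟩), rfl⟩
    simp only [Φ, if_true, mem_union, not_or, mem_compl_iff, not_not] at this
    exact this.2
  · have := hcn _ ⟨(n, ⟨h, hh⟩, ⟨j, hj⟩), rfl⟩
    simp only [Φ, hn, hA, if_true, if_false, mem_compl_iff, not_not] at this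
    exact this

theorem exists_seq (hcov : dnum ≤ covM) (r : II → Fin0 → ℕ) :
    ∃ c : II → ℕ → ℕ, ∀ i, c i ∈ TT ∧ ∀ h ∈ GS i (fun j _ => c j), psi (c i) ≠ h ∧
      (h ∈ AA → ∀ n : ℤ, n ≠ 0 → ∀ j ≤ i, c i ∈ EE n h (r j)) := by
  let F : ∀ i : II, (∀ j, j < i → ℕ → ℕ) → ℕ → ℕ := fun i rec =>
    Classical.choose (step hcov r i rec)
  let c : II → ℕ → ℕ := (wellFounded_lt (α := II)).fix F
  refine ⟨c, fun i => ?_⟩
  have h1 : c i = F i fun j _ => c j := WellFounded.fix_eq _ _ _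
  rw [h1]
  exact Classical.choose_spec (step hcov r i fun j _ => c j)

/-- A subgroup of `ℤ^ℕ` of cardinality `𝔡` that is concentrated, modulo fewer than `𝔡` elements, on
the finitely supported sequences. -/
theorem exists_group (hcov : dnum ≤ covM) :
    ∃ G : AddSubgroup (ℕ → ℤ), #G = dnum ∧ (∀ z : ℕ → ℤ, (∃ M, ∀ m, M ≤ m → z m = 0) → z ∈ G) ∧
      ∀ U : Set (ℕ → ℤ), IsOpen U → (∀ z : ℕ → ℤ, (∃ M, ∀ m, M ≤ m → z m = 0) → z ∈ U) →
        #({g : G | (g : ℕ → ℤ) ∉ U}) < dnum := by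
  classical
  obtain ⟨r, hr⟩ := exists_dom
  obtain ⟨c, hc⟩ := exists_seq hcov r
  set x : II → ℕ → ℤ := fun i => psi (c i) with hx
  set G : Submodule ℤ (ℕ → ℤ) := Fin0 ⊔ Submodule.span ℤ (range x) with hG
  have hxA : ∀ i, x i ∈ AA := fun i => psi_mem_AA (hc i).1
  have hGS : ∀ (i : II) (g : ℕ → ℤ), g ∈ GS i (fun j _ => c j) ↔
      ∃ d ∈ Fin0, ∃ F : II →₀ ℤ, (∀ k ∈ F.support, k < i) ∧ g = d + F.sum fun k n => n • x k := by
    intro i g
    constructor
    · rintro ⟨⟨d, F⟩, rfl⟩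
      refine ⟨d, d.2, F.embDomain (Function.Embedding.subtype _), ?_, ?_⟩
      · intro k hk
        rw [Finsupp.support_embDomain, Finset.mem_map] at hk
        obtain ⟨k', -, rfl⟩ := hk
        exact k'.2
      · simp [Finsupp.sum_embDomain, hx]
    · rintro ⟨d, hd, F, hF, rfl⟩
      refine ⟨(⟨d, hd⟩, F.subtypeDomain fun j => j < i), ?_⟩
      simp only
      congr 1
      exact Finsupp.sum_subtypeDomain_index (h := fun k n => n • x k) hF
  have hGA : ∀ i, ∀ g ∈ GS i (fun j _ => c j), g ∈ AA := by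
    intro i g hg
    obtain ⟨d, hd, F, -, rfl⟩ := (hGS i g).1 hg
    exact AA.add_mem (fin0_le_AA hd)
      (Submodule.sum_mem _ fun k _ => AA.smul_mem _ (hxA k))
  have hmem : ∀ g, g ∈ G ↔ ∃ d ∈ Fin0, ∃ F : II →₀ ℤ, g = d + F.sum fun k n => n • x k := by
    intro g
    rw [hG, Submodule.mem_sup]
    constructor
    · rintro ⟨d, hd, y, hy, rfl⟩
      obtain ⟨F, rfl⟩ := Finsupp.mem_span_range_iff_exists_finsupp.1 hy
      exact ⟨d, hd, F, rfl⟩
    · rintro ⟨d, hd, F, rfl⟩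
      exact ⟨d, hd, _, Finsupp.mem_span_range_iff_exists_finsupp.2 ⟨F, rfl⟩, rfl⟩
  have hkey : ∀ g ∈ G, ∀ j : II, g ∈ GS j (fun j _ => c j) ∨
      ∃ i, j ≤ i ∧ ∃ n : ℤ, n ≠ 0 ∧ ∃ h ∈ GS i (fun j _ => c j), g = n • x i + h := by
    intro g hg j
    obtain ⟨d, hd, F, rfl⟩ := (hmem g).1 hg
    by_cases hF : ∀ k ∈ F.support, k < j
    · exact Or.inl ((hGS j _).2 ⟨d, hd, F, hF, rfl⟩)
    · push Not at hF
      obtain ⟨k, hk, hjk⟩ := hF
      have hne : F.support.Nonempty := ⟨k, hk⟩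
      set i := F.support.max' hne with hi
      have hiF : i ∈ F.support := Finset.max'_mem _ _
      refine Or.inr ⟨i, le_trans hjk (Finset.le_max' _ _ hk), F i, Finsupp.mem_support_iff.1 hiF,
        d + (F.erase i).sum fun k n => n • x k, (hGS i _).2 ⟨d, hd, F.erase i, ?_, rfl⟩, ?_⟩
      · intro k' hk'
        rw [Finsupp.support_erase, Finset.mem_erase] at hk'
        exact lt_of_le_of_ne (Finset.le_max' _ _ hk'.2) hk'.1
      · have h1 : F.sum (fun k n => n • x k) =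
            F i • x i + (F.erase i).sum fun k n => n • x k := by
          conv_lhs => rw [← Finsupp.single_add_erase i F]
          rw [Finsupp.sum_add_index' (h := fun k (n : ℤ) => n • x k) (fun k => zero_smul _ _)
            (fun k a b => add_smul _ _ _),
            Finsupp.sum_single_index (h := fun k (n : ℤ) => n • x k) (zero_smul _ _)]
        rw [h1]
        abel
  have hxinj : Function.Injective x := by
    have haux : ∀ i j, j < i → x i ≠ x j := by
      intro i j hji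
      refine ((hc i).2 (x j) ((hGS i _).2 ⟨0, Fin0.zero_mem, Finsupp.single j 1, ?_, ?_⟩)).1
      · intro k hk
        rw [Finsupp.support_single_ne_zero _ one_ne_zero, Finset.mem_singleton] at hk
        rw [hk]; exact hji
      · rw [Finsupp.sum_single_index (h := fun k (n : ℤ) => n • x k) (zero_smul _ _)]
        simp
    intro i j hij
    rcases lt_trichotomy i j with h | h | h
    · exact absurd hij.symm (haux j i h)
    · exact h
    · exact absurd hij (haux i j h)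
  refine ⟨G.toAddSubgroup, ?_, ?_, ?_⟩
  · apply le_antisymm
    · have h1 : (G : Set (ℕ → ℤ)) ⊆ range fun q : Fin0 × (II →₀ ℤ) =>
          (q.1 : ℕ → ℤ) + q.2.sum fun k n => n • x k := by
        intro g hg
        obtain ⟨d, hd, F, rfl⟩ := (hmem g).1 hg
        exact ⟨(⟨d, hd⟩, F), rfl⟩
      have h2 : #(G : Set (ℕ → ℤ)) ≤ dnum := by
        refine le_trans (mk_le_mk_of_subset h1) (le_trans mk_range_le ?_)
        have : Infinite II := by
          rw [Cardinal.infinite_iff, mk_II]; exact aleph0_lt_dnum.le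
        rw [Cardinal.mk_prod, Cardinal.lift_id, Cardinal.lift_id, Cardinal.mk_finsupp_of_infinite,
          mk_II, Cardinal.mk_int, max_eq_left aleph0_lt_dnum.le]
        exact le_trans (mul_le_mul_left mk_fin0_le _)
          (by rw [Cardinal.aleph0_mul_eq aleph0_lt_dnum.le])
      exact h2
    · rw [← mk_II]
      refine Cardinal.mk_le_of_injective (f := fun i => (⟨x i, ?_⟩ : G.toAddSubgroup)) ?_
      · exact Submodule.mem_sup_right (Submodule.subset_span (mem_range_self i))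
      · intro i j hij
        exact hxinj (congrArg Subtype.val hij)
  · intro z hz
    exact Submodule.mem_sup_left (show z ∈ Fin0 from hz)
  · intro U hU hDU
    have h1 : ∀ d : Fin0, ∃ R : ℕ, ∀ z : ℕ → ℤ, (∀ m < R, z m = (d : ℕ → ℤ) m) → z ∈ U := by
      intro d
      obtain ⟨_, ⟨y, k, rfl⟩, hy, hyU⟩ :=
        (PiNat.isTopologicalBasis_cylinders (fun _ => ℤ)).exists_subset_of_mem_open
          (hDU d d.2) hU
      refine ⟨k, fun z hz => hyU (PiNat.mem_cylinder_iff.2 fun m hm => ?_)⟩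
      rw [hz m hm, PiNat.mem_cylinder_iff.1 hy m hm]
    choose s hs using h1
    obtain ⟨j, hj⟩ := hr s
    have h2 : {g : G.toAddSubgroup | (g : ℕ → ℤ) ∉ U} ⊆
        (Subtype.val : G.toAddSubgroup → ℕ → ℤ) ⁻¹' GS j (fun j _ => c j) := by
      rintro ⟨g, hg⟩ hgU
      rcases hkey g hg j with h | ⟨i, hji, n, hn, h, hh, rfl⟩
      · exact h
      · exfalso
        apply hgU
        obtain ⟨d, hd⟩ := ((hc i).2 h hh).2 (hGA i h hh) n hn j hji
        exact hs d _ fun m hm => by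
          have := hd m (lt_of_lt_of_le hm (hj d))
          simpa [hx] using this
    exact lt_of_le_of_lt (mk_le_mk_of_subset h2)
      (lt_of_le_of_lt (Cardinal.mk_preimage_of_injective _ _ Subtype.val_injective)
        (mk_GS_lt j _))

/-- If `cov(M) = 𝔡` then `ℤ^ℕ` has a subgroup of cardinality `𝔡` with the Menger property. -/
theorem exists_menger (hcov : dnum ≤ covM) :
    ∃ G : AddSubgroup (ℕ → ℤ), #G = dnum ∧ Menger G ∧
      (∀ z : ℕ → ℤ, (∃ M, ∀ m, M ≤ m → z m = 0) → z ∈ G) ∧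
      ∀ U : Set (ℕ → ℤ), IsOpen U → (∀ z : ℕ → ℤ, (∃ M, ∀ m, M ≤ m → z m = 0) → z ∈ U) →
        #({g : G | (g : ℕ → ℤ) ∉ U}) < dnum := by
  obtain ⟨G, h1, h2, h3⟩ := exists_group hcov
  refine ⟨G, h1, ?_, h2, h3⟩
  have hsc0 : SecondCountableTopology (ℕ → ℤ) := inferInstance
  have hsc : SecondCountableTopology G := Topology.IsEmbedding.subtypeVal.secondCountableTopology
  refine menger_of_concentrated (D := {g : G | (g : ℕ → ℤ) ∈ Fin0}) ?_ ?_
  · have : ((fun g : G => (g : ℕ → ℤ)) ⁻¹' (Fin0 : Set (ℕ → ℤ))).Countable :=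
      Set.Countable.preimage_of_injOn (countable_coe_iff.1 fin0_countable)
        Subtype.val_injective.injOn
    exact this
  · intro V hV hDV
    obtain ⟨U, hU, rfl⟩ := isOpen_induced_iff.1 hV
    exact h3 U hU fun z hz => hDV (show (⟨z, h2 z hz⟩ : G) ∈ {g : G | (g : ℕ → ℤ) ∈ Fin0} from hz)

end Pool.Agent.Lib.MP_ab9ad9_lc
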