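import Pool.Agent.Lib.MP_ab9ad9_lc.Gap98

set_option autoImplicit false

open Cardinal Set Topology Filter

namespace Pool.Agent.Lib.MP_ab9ad9_lc

section

variable (f : II → ℕ → ℕ) (a : II → Set ℕ)

/-- Finite intersections of the basic large sets. -/
def BL (L : List (II × II)) : Set ℕ := {n | ∀ p ∈ L, ∀ m, n ≤ m → m < f p.1 n → m ∉ a p.2}

def Large (X : Set ℕ) : Prop := ∃ L : List (II × II), (∀ p ∈ L, p.1 ≤ p.2) ∧ BL f a L ⊆ X

/-- The conclusion of `exists_seqa`. -/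
def SeqA : Prop := ∀ i, (a i).Infinite ∧
      (∀ s, (As f i (fun j _ => a j) s).Infinite → ∀ t : List {k : II // k ≤ i}, ∀ N, ∃ n, N ≤ n ∧
        n ∈ As f i (fun j _ => a j) s ∧ ∀ m, n ≤ m → m < (t.map fun k => f k.1 n).sum → m ∉ a i) ∧
      (∀ j, j < i → ∃ n, ∀ m, n ≤ m → m < nx (a j) n + 1 → m ∉ a i)

variable {f a}

theorem list_bound {i : II} : ∀ L : List (II × II), (∀ p ∈ L, p.2 < i) →
    L = [] ∨ ∃ i' < i, ∀ p ∈ L, p.2 ≤ i'
  | [], _ => Or.inl rfl
  | p :: L, h => by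
    right
    rcases list_bound L (fun q hq => h q (List.mem_cons_of_mem _ hq)) with rfl | ⟨i', hi', hL⟩
    · exact ⟨p.2, h p List.mem_cons_self, fun q hq => by
        rcases List.mem_cons.1 hq with rfl | hq
        · exact le_rfl
        · simp at hq⟩
    · refine ⟨max p.2 i', max_lt (h p List.mem_cons_self) hi', fun q hq => ?_⟩
      rcases List.mem_cons.1 hq with rfl | hq
      · exact le_max_left _ _
      · exact le_trans (hL q hq) (le_max_right _ _)

theorem BL_infinite (ha : SeqA f a) : ∀ i : II, ∀ L : List (II × II), (∀ p ∈ L, p.1 ≤ p.2) →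
    (∀ p ∈ L, p.2 ≤ i) → (BL f a L).Infinite := by
  classical
  intro i
  induction i using WellFoundedLT.induction with
  | ind i ih =>
    intro L hL hi
    set L1 := L.filter fun p => decide (p.2 < i) with hL1
    have h1 : ∀ p ∈ L1, p ∈ L ∧ p.2 < i := fun p hp => by
      rw [hL1, List.mem_filter] at hp
      exact ⟨hp.1, of_decide_eq_true hp.2⟩
    have hinf : (BL f a L1).Infinite := by
      rcases list_bound (i := i) L1 (fun p hp => (h1 p hp).2) with h | ⟨i', hi', hb⟩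
      · rw [h]
        have : BL f a [] = Set.univ := by
          ext n; simp [BL]
        rw [this]
        exact infinite_univ
      · exact ih i' hi' L1 (fun p hp => hL p (h1 p hp).1) hb
    set s : List ({k : II // k ≤ i} × {j : II // j < i}) := L1.attach.map fun p =>
      (⟨p.1.1, le_trans (hL _ (h1 _ p.2).1) (h1 _ p.2).2.le⟩, ⟨p.1.2, (h1 _ p.2).2⟩) with hs
    set t : List {k : II // k ≤ i} := L.attach.map fun p =>
      ⟨p.1.1, le_trans (hL _ p.2) (hi _ p.2)⟩ with ht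
    have hsB : As f i (fun j _ => a j) s = BL f a L1 := by
      ext n
      constructor
      · intro hn p hp
        exact hn (⟨p.1, le_trans (hL _ (h1 _ hp).1) (h1 _ hp).2.le⟩, ⟨p.2, (h1 _ hp).2⟩)
          (List.mem_map.2 ⟨⟨p, hp⟩, List.mem_attach _ _, rfl⟩)
      · intro hn q hq
        obtain ⟨⟨p, hp⟩, -, rfl⟩ := List.mem_map.1 hq
        exact hn p hp
    rw [Set.infinite_iff_exists_gt] 
    intro N
    obtain ⟨n, hN, hn, hn2⟩ := (ha i).2.1 s (by rw [hsB]; exact hinf) t (N + 1)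
    refine ⟨n, fun p hp m hm1 hm2 => ?_, hN⟩
    rcases lt_or_eq_of_le (hi p hp) with h | h
    · rw [hsB] at hn
      exact hn p (List.mem_filter.2 ⟨hp, decide_eq_true h⟩) m hm1 hm2
    · rw [h]
      refine hn2 m hm1 (lt_of_lt_of_le hm2 ?_)
      refine List.single_le_sum (fun _ _ => Nat.zero_le _) _ ?_
      refine List.mem_map.2 ⟨⟨p.1, le_trans (hL _ hp) (hi _ hp)⟩, ?_, rfl⟩
      exact List.mem_map.2 ⟨⟨p, hp⟩, List.mem_attach _ _, rfl⟩

theorem Large.nonempty (ha : SeqA f a) {X : Set ℕ} (h : Large f a X) : X.Nonempty := by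
  obtain ⟨L, hL, hX⟩ := h
  have hi : ∃ i : II, ∀ p ∈ L, p.2 ≤ i := by
    have : ∀ L : List (II × II), ∃ i : II, ∀ p ∈ L, p.2 ≤ i := by
      intro L
      induction L with
      | nil =>
        have : Nonempty II := by
          rw [← Cardinal.mk_ne_zero_iff, mk_II]
          exact (lt_trans Cardinal.aleph0_pos aleph0_lt_dnum).ne'
        exact ⟨this.some, fun p hp => by simp at hp⟩
      | cons p L ih =>
        obtain ⟨i, hi⟩ := ih
        refine ⟨max p.2 i, fun q hq => ?_⟩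
        rcases List.mem_cons.1 hq with rfl | hq
        · exact le_max_left _ _
        · exact le_trans (hi q hq) (le_max_right _ _)
    exact this L
  obtain ⟨i, hi⟩ := hi
  exact (BL_infinite ha i L hL hi).nonempty.mono hX

theorem Large.inter {X Y : Set ℕ} (hX : Large f a X) (hY : Large f a Y) : Large f a (X ∩ Y) := by
  obtain ⟨L, hL, h1⟩ := hX
  obtain ⟨L', hL', h2⟩ := hY
  refine ⟨L ++ L', fun p hp => ?_, fun n hn => ⟨h1 fun p hp => hn p (List.mem_append_left _ hp),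
    h2 fun p hp => hn p (List.mem_append_right _ hp)⟩⟩
  rcases List.mem_append.1 hp with h | h
  · exact hL p h
  · exact hL' p h

theorem Large.mono {X Y : Set ℕ} (hX : Large f a X) (h : X ⊆ Y) : Large f a Y := by
  obtain ⟨L, hL, h1⟩ := hX
  exact ⟨L, hL, h1.trans h⟩

theorem large_gap {k i : II} (h : k ≤ i) :
    Large f a {n | ∀ m, n ≤ m → m < f k n → m ∉ a i} :=
  ⟨[(k, i)], by simpa using h, fun n hn => hn (k, i) (by simp)⟩

theorem nx_mem {s : Set ℕ} (hs : s.Infinite) (n : ℕ) : nx s n ∈ s ∧ n ≤ nx s n := by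
  have hne : {m | m ∈ s ∧ n ≤ m}.Nonempty := by
    obtain ⟨m, hm, hnm⟩ := hs.exists_gt n
    exact ⟨m, hm, hnm.le⟩
  exact Nat.sInf_mem hne

variable (f a) in
/-- `y ≤ F` on a large set. -/
def LeL (y F : ℕ → ℕ) : Prop := Large f a {n | y n ≤ F n}

theorem LeL.trans {x y z : ℕ → ℕ} (h1 : LeL f a x y) (h2 : LeL f a y z) : LeL f a x z :=
  (h1.inter h2).mono fun n hn =>
    show x n ≤ z n from le_trans (show x n ≤ y n from hn.1) (show y n ≤ z n from hn.2)

theorem leL_of_le {x y : ℕ → ℕ} (h : ∀ n, x n ≤ y n) : LeL f a x y :=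
  ⟨[], by simp, fun n _ => h n⟩

theorem leL_nx (ha : SeqA f a) {k i : II} (h : k ≤ i) : LeL f a (f k) (nx (a i)) :=
  (large_gap h).mono fun n hn => by
    by_contra hcon
    have hcon' : nx (a i) n < f k n := not_le.1 hcon
    obtain ⟨h1, h2⟩ := nx_mem (ha i).1 n
    exact hn _ h2 hcon' h1

/-- Regularity: fewer than `𝔡` indices are bounded. -/
theorem bdd_of_reg (hr : dnum.IsRegular) {J : Type} (hJ : #J < dnum) (j : J → II) :
    ∃ i, ∀ α, j α ≤ i := by
  by_contra hcon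
  push Not at hcon
  have h1 : (Set.univ : Set II) ⊆ ⋃ α : J, Iio (j α) := fun i _ => by
    obtain ⟨α, hα⟩ := hcon i
    exact mem_iUnion.2 ⟨α, hα⟩
  have h2 : #(Set.univ : Set II) ≤ #(⋃ α : J, Iio (j α) : Set II) := mk_le_mk_of_subset h1
  have h3 : #(⋃ α : J, Iio (j α) : Set II) < dnum :=
    lt_of_le_of_lt (Cardinal.mk_iUnion_le_sum_mk)
      (Cardinal.sum_lt_of_isRegular hr hJ fun α => mk_Iio_lt (j α))
  rw [Cardinal.mk_univ, mk_II] at h2
  exact absurd h3 (not_lt.2 h2)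

theorem bound (hr : dnum.IsRegular) (hf : ∀ s : ℕ → ℕ, ∃ i, ∀ n, s n ≤ f i n) (ha : SeqA f a)
    {J : Type} (hJ : #J < dnum) (F : J → ℕ → ℕ) : ∃ H, ∀ α, LeL f a (F α) H := by
  choose j hj using fun α => hf (F α)
  obtain ⟨i, hi⟩ := bdd_of_reg hr hJ j
  exact ⟨nx (a i), fun α => (leL_of_le (hj α)).trans (leL_nx ha (hi α))⟩

variable (a) in
/-- The characteristic function of `a i`. -/
noncomputable def xa (i : II) : ℕ → ℤ := Set.indicator (a i) 1

variable (a) in
noncomputable def GA : Submodule ℤ (ℕ → ℤ) := Fin0 ⊔ Submodule.span ℤ (range (xa a))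

variable (a) in
/-- Locally bounded functions on the group. -/
def LB (φ : (ℕ → ℤ) → ℕ → ℕ) : Prop :=
  ∀ y ∈ GA a, ∀ M, ∃ K, ∀ z ∈ GA a, (∀ m < K, z m = y m) → φ z M ≤ K

variable (f a) in
def Good (S : Set (ℕ → ℤ)) : Prop :=
  ∀ φ, LB a φ → ∃ F, ∀ y ∈ S, LeL f a (φ y) F

theorem good_small (hr : dnum.IsRegular) (hf : ∀ s : ℕ → ℕ, ∃ i, ∀ n, s n ≤ f i n)
    (ha : SeqA f a) {S : Set (ℕ → ℤ)} (hS : #S < dnum) : Good f a S := by
  intro φ _
  obtain ⟨H, hH⟩ := bound hr hf ha hS fun y : S => φ y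
  exact ⟨H, fun y hy => hH ⟨y, hy⟩⟩

theorem good_iUnion (hr : dnum.IsRegular) (hf : ∀ s : ℕ → ℕ, ∃ i, ∀ n, s n ≤ f i n)
    (ha : SeqA f a) {J : Type} (hJ : #J < dnum) {S : J → Set (ℕ → ℤ)}
    (h : ∀ α, Good f a (S α)) : Good f a (⋃ α, S α) := by
  intro φ hφ
  choose F hF using fun α => h α φ hφ
  obtain ⟨H, hH⟩ := bound hr hf ha hJ F
  refine ⟨H, fun y hy => ?_⟩
  obtain ⟨α, hα⟩ := mem_iUnion.1 hy
  exact (hF α y hα).trans (hH α)

theorem xa_mem (i : II) : xa a i ∈ GA a :=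
  Submodule.mem_sup_right (Submodule.subset_span (mem_range_self i))

theorem fin0_le_GA : Fin0 ≤ GA a := le_sup_left

/-- The characteristic function of a finite set. -/
noncomputable def tu (u : Finset ℕ) : ℕ → ℤ := Set.indicator (u : Set ℕ) 1

theorem tu_mem (u : Finset ℕ) : tu u ∈ Fin0 := by
  refine ⟨u.sup id + 1, fun m hm => ?_⟩
  unfold tu
  rw [Set.indicator_of_notMem]
  intro hmu
  have : m ≤ u.sup id := Finset.le_sup (f := id) (Finset.mem_coe.1 hmu)
  omega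

theorem good_step (hr : dnum.IsRegular) (hf : ∀ s : ℕ → ℕ, ∃ i, ∀ n, s n ≤ f i n)
    (ha : SeqA f a) {S : Set (ℕ → ℤ)} (hSG : S ⊆ GA a) (hS : Good f a S) (c : ℤ) :
    Good f a {z | ∃ h ∈ S, ∃ i, z = h + c • xa a i} := by
  classical
  intro φ hφ
  let P : (ℕ → ℤ) → ℕ → ℕ → Prop := fun h M K =>
    ∀ u ∈ (Finset.range M).powerset, ∀ z ∈ GA a, (∀ m < K, z m = (h + c • tu u) m) → φ z M ≤ K
  have hPex : ∀ h ∈ GA a, ∀ M, ∃ K, P h M K := by
    intro h hh M
    choose K hK using fun u : Finset ℕ => hφ (h + c • tu u)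
      ((GA a).add_mem hh ((GA a).smul_mem c (fin0_le_GA (tu_mem u)))) M
    refine ⟨∑ u ∈ (Finset.range M).powerset, K u, fun u hu z hz hzu => ?_⟩
    have h1 : K u ≤ ∑ u ∈ (Finset.range M).powerset, K u :=
      Finset.single_le_sum (f := K) (fun _ _ => Nat.zero_le _) hu
    exact le_trans (hK u z hz fun m hm => hzu m (lt_of_lt_of_le hm h1)) h1
  let Θ : (ℕ → ℤ) → ℕ → ℕ := fun h M => sInf {K | P h M K}
  have hΘ : ∀ h ∈ GA a, ∀ M, P h M (Θ h M) := fun h hh M => Nat.sInf_mem (hPex h hh M)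
  have hLB : LB a Θ := by
    intro y hy M
    refine ⟨Θ y M, fun z hz hzy => Nat.sInf_le ?_⟩
    intro u hu w hw hwz
    refine hΘ y hy M u hu w hw fun m hm => ?_
    rw [hwz m hm]
    simp only [Pi.add_apply]
    rw [hzy m hm]
  obtain ⟨F, hF⟩ := hS Θ hLB
  obtain ⟨j0, hj0⟩ := hf F
  -- the indices below `j0`
  have hi : ∀ i : II, ∃ H : ℕ → ℕ, ∀ h ∈ S, LeL f a (φ (h + c • xa a i)) H := by
    intro i
    refine hS (fun z => φ (z + c • xa a i)) ?_
    intro y hy M
    obtain ⟨K, hK⟩ := hφ (y + c • xa a i) ((GA a).add_mem hy ((GA a).smul_mem c (xa_mem i))) M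
    refine ⟨K, fun z hz hzy => hK _ ((GA a).add_mem hz ((GA a).smul_mem c (xa_mem i)))
      fun m hm => ?_⟩
    simp only [Pi.add_apply]
    rw [hzy m hm]
  choose Hi hHi using hi
  obtain ⟨H, hH⟩ := bound hr hf ha (mk_Iio_lt j0) fun i : {i : II // i < j0} => Hi i
  refine ⟨fun n => f j0 n + H n, ?_⟩
  rintro z ⟨h, hh, i, rfl⟩
  rcases lt_or_ge i j0 with hij | hij
  · exact ((hHi i h hh).trans (hH ⟨i, hij⟩)).trans (leL_of_le fun n => Nat.le_add_left _ _)
  · refine ((hF h hh).inter (large_gap (f := f) (a := a) hij)).mono ?_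
    rintro M ⟨hM1, hM2⟩
    have hM3 : Θ h M ≤ f j0 M := le_trans hM1 (hj0 M)
    have h4 := hΘ h (hSG hh) M ((Finset.range M).filter (· ∈ a i))
      (Finset.mem_powerset.2 (Finset.filter_subset _ _)) (h + c • xa a i)
      ((GA a).add_mem (hSG hh) ((GA a).smul_mem c (xa_mem i))) ?_
    · exact le_trans h4 (le_trans hM3 (Nat.le_add_right _ _))
    · intro m hm
      simp only [Pi.add_apply, Pi.smul_apply]
      congr 2
      unfold xa tu
      by_cases hmM : m < M
      · by_cases hma : m ∈ a i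
        · rw [Set.indicator_of_mem hma, Set.indicator_of_mem]
          simp [hmM, hma]
        · rw [Set.indicator_of_notMem hma, Set.indicator_of_notMem]
          simp [hma]
      · have hma : m ∉ a i := hM2 m (not_lt.1 hmM) (lt_of_lt_of_le hm hM3)
        rw [Set.indicator_of_notMem hma, Set.indicator_of_notMem]
        simp [hma]

variable (a) in
/-- The elements of the group with given list of coefficients. -/
def GG : List ℤ → Set (ℕ → ℤ)
  | [] => Fin0
  | c :: cs => {z | ∃ h ∈ GG cs, ∃ i, z = h + c • xa a i}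

theorem GG_sub : ∀ cs : List ℤ, GG a cs ⊆ GA a
  | [] => fun z hz => fin0_le_GA hz
  | c :: cs => by
    rintro z ⟨h, hh, i, rfl⟩
    exact (GA a).add_mem (GG_sub cs hh) ((GA a).smul_mem c (xa_mem i))

theorem good_GG (hr : dnum.IsRegular) (hf : ∀ s : ℕ → ℕ, ∃ i, ∀ n, s n ≤ f i n)
    (ha : SeqA f a) : ∀ cs : List ℤ, Good f a (GG a cs)
  | [] => good_small hr hf ha (lt_of_le_of_lt mk_fin0_le aleph0_lt_dnum)
  | c :: cs => good_step hr hf ha (GG_sub cs) (good_GG hr hf ha cs) c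

theorem GA_sub : (GA a : Set (ℕ → ℤ)) ⊆ ⋃ cs : List ℤ, GG a cs := by
  classical
  intro g hg
  obtain ⟨d, hd, y, hy, rfl⟩ := Submodule.mem_sup.1 (show g ∈ Fin0 ⊔ Submodule.span ℤ (range (xa a))
    from hg)
  obtain ⟨F, rfl⟩ := Finsupp.mem_span_range_iff_exists_finsupp.1 hy
  have : ∀ F : II →₀ ℤ, ∃ cs : List ℤ, d + (F.sum fun k n => n • xa a k) ∈ GG a cs := by
    intro F
    induction F using Finsupp.induction with
    | zero => exact ⟨[], by rw [Finsupp.sum_zero_index, add_zero]; exact hd⟩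
    | single_add k n F _ _ ih =>
      obtain ⟨cs, hcs⟩ := ih
      refine ⟨n :: cs, _, hcs, k, ?_⟩
      rw [Finsupp.sum_add_index' (h := fun k (n : ℤ) => n • xa a k) (fun k => zero_smul _ _)
        (fun k a b => add_smul _ _ _),
        Finsupp.sum_single_index (h := fun k (n : ℤ) => n • xa a k) (zero_smul _ _)]
      abel
  obtain ⟨cs, hcs⟩ := this F
  exact mem_iUnion.2 ⟨cs, hcs⟩

theorem good_GA (hr : dnum.IsRegular) (hf : ∀ s : ℕ → ℕ, ∃ i, ∀ n, s n ≤ f i n)
    (ha : SeqA f a) : Good f a (GA a) := by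
  have h1 := good_iUnion hr hf ha (J := List ℤ)
    (lt_of_le_of_lt (Cardinal.mk_le_aleph0) aleph0_lt_dnum) (S := GG a) (good_GG hr hf ha)
  intro φ hφ
  obtain ⟨F, hF⟩ := h1 φ hφ
  exact ⟨F, fun y hy => hF y (GA_sub hy)⟩

end

end Pool.Agent.Lib.MP_ab9ad9_lc
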